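import Pool.Agent.Helper13.Sof.Goals

/-!
# Packets FINSTAB, MKKSYS and FINAL
-/

namespace Helper94.Sof

open Finset Pool.Agent.Helper13.Sof

noncomputable section

/-! ### counting -/

section cnt

variable {A : Type} [Fintype A]

theorem cnt_nonneg (P : A → Prop) : 0 ≤ cnt P := by
  unfold cnt; positivity

theorem cnt_eq (P : A → Prop) [DecidablePred P] : cnt P = ((univ.filter P).card : ℝ) := by
  have h : (@Finset.filter A P (fun a => Classical.propDecidable _) univ) = univ.filter P := by
    ext s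
    simp only [mem_filter]
  show (((@Finset.filter A P (fun a => Classical.propDecidable _) univ).card : ℕ) : ℝ) = _
  rw [h]

theorem cnt_mono {P Q : A → Prop} (h : ∀ s, P s → Q s) : cnt P ≤ cnt Q := by
  classical
  unfold cnt
  have : (univ.filter P).card ≤ (univ.filter Q).card := by
    apply card_le_card
    intro s hs
    simp only [mem_filter, mem_univ, true_and] at hs ⊢
    exact h s hs
  exact_mod_cast this

theorem cnt_or (P Q : A → Prop) : cnt (fun s => P s ∨ Q s) ≤ cnt P + cnt Q := by
  classical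
  rw [cnt_eq, cnt_eq, cnt_eq]
  have : (univ.filter (fun s => P s ∨ Q s)).card ≤ (univ.filter P).card + (univ.filter Q).card := by
    refine le_trans (card_le_card ?_) (card_union_le _ _)
    intro s hs
    simp only [mem_filter, mem_univ, true_and, mem_union] at hs ⊢
    exact hs
  exact_mod_cast this

theorem cnt_perm (σ : Equiv.Perm A) (P : A → Prop) : cnt (fun s => P (σ s)) = cnt P := by
  classical
  unfold cnt
  congr 1
  refine card_bij (fun s _ => σ s) ?_ ?_ ?_
  · intro s hs
    simp only [mem_filter, mem_univ, true_and] at hs ⊢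
    exact hs
  · intro s _ t _ h
    exact σ.injective h
  · intro t ht
    refine ⟨σ.symm t, ?_, by simp⟩
    simp only [mem_filter, mem_univ, true_and] at ht ⊢
    simpa using ht

theorem cnt_mem (S : Finset A) : cnt (fun s => s ∈ S) = (S.card : ℝ) := by
  classical
  unfold cnt
  congr 2
  ext s
  simp

theorem cnt_le_card (P : A → Prop) : cnt P ≤ (Fintype.card A : ℝ) := by
  classical
  unfold cnt
  exact_mod_cast card_le_univ _

open Classical in
theorem cnt_exists_le {ι : Type*} [Fintype ι] (P : ι → A → Prop) :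
    cnt (fun s => ∃ i, P i s) ≤ ∑ i, cnt (P i) := by
  simp only [cnt_eq]
  have : (univ.filter (fun s => ∃ i, P i s)).card ≤ ∑ i, (univ.filter (P i)).card := by
    refine le_trans (card_le_card ?_) card_biUnion_le
    intro s hs
    simp only [mem_filter, mem_univ, true_and, mem_biUnion] at hs ⊢
    exact hs
  exact_mod_cast this

end cnt

/-! ### finite subgroups -/

open Classical in
theorem finStab : FinStab := by
  intro G _ L hL ε hε
  haveI : Finite L := hL
  haveI : Fintype L := Fintype.ofFinite L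
  set m : ℕ := Fintype.card L with hm
  have hm1 : 0 < m := Fintype.card_pos
  refine ⟨hL.toFinset, ε / (m : ℝ) ^ 3, by positivity, ?_⟩
  intro A _ ψ hψ
  obtain ⟨h1, h2⟩ := hψ
  -- good points
  set Good : A → Prop := fun s => ∀ g h k : L,
    ψ ((h : G) * k) (ψ g s) = ψ h (ψ k (ψ g s)) with hGood
  have good_mul : ∀ s, Good s → ∀ h k : L, ψ ((h : G) * k) s = ψ h (ψ k s) := by
    intro s hs h k
    have := hs 1 h k
    simpa [h1] using this
  have good_inv : ∀ s, Good s → ∀ g : L, Good (ψ g s) := by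
    intro s hs g0 g h k
    rw [← good_mul s hs g g0]
    exact hs (g * g0) h k
  have good_one : ∀ s, Good s → ∀ g : L, ψ ((g⁻¹ : L) : G) (ψ g s) = s := by
    intro s hs g
    rw [← good_mul s hs g⁻¹ g]
    simp [h1]
  have good_one' : ∀ s, Good s → ∀ g : L, ψ (g : G) (ψ ((g⁻¹ : L) : G) s) = s := by
    intro s hs g
    rw [← good_mul s hs g g⁻¹]
    simp [h1]
  set ρ : L → Equiv.Perm A := fun g =>
    { toFun := fun s => if Good s then ψ g s else s
      invFun := fun s => if Good s then ψ ((g⁻¹ : L) : G) s else s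
      left_inv := by
        intro s
        by_cases hs : Good s
        · simp only [if_pos hs, if_pos (good_inv s hs g)]
          exact good_one s hs g
        · simp only [if_neg hs]
      right_inv := by
        intro s
        by_cases hs : Good s
        · simp only [if_pos hs, if_pos (good_inv s hs g⁻¹)]
          exact good_one' s hs g
        · simp only [if_neg hs] } with hρ
  have hρa : ∀ g s, ρ g s = if Good s then ψ g s else s := fun g s => rfl
  refine ⟨{ toFun := ρ, map_one' := ?_, map_mul' := ?_ }, univ.filter (fun s => ¬ Good s), ?_, ?_⟩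
  · ext s
    rw [hρa]
    by_cases hs : Good s
    · simp [if_pos hs, h1]
    · simp [if_neg hs]
  · intro g h
    ext s
    rw [Equiv.Perm.mul_apply, hρa, hρa h s]
    by_cases hs : Good s
    · rw [if_pos hs, if_pos hs, hρa, if_pos (good_inv s hs h)]
      exact good_mul s hs g h
    · rw [if_neg hs, if_neg hs, hρa, if_neg hs]
  · -- counting
    have e1 : ((univ.filter (fun s => ¬ Good s)).card : ℝ) = cnt (fun s => ¬ Good s) :=
      (cnt_eq _).symm
    rw [e1]
    have e2 : cnt (fun s => ¬ Good s) ≤ ∑ t : L × L × L,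
        cnt (fun s => ψ ((t.2.1 : G) * t.2.2) (ψ t.1 s) ≠ ψ t.2.1 (ψ t.2.2 (ψ t.1 s))) := by
      refine le_trans (cnt_mono ?_) (cnt_exists_le _)
      intro s hs
      simp only [hGood, not_forall] at hs
      obtain ⟨g, h, k, hne⟩ := hs
      exact ⟨(g, h, k), hne⟩
    refine e2.trans ?_
    have e3 : ∀ t : L × L × L,
        cnt (fun s => ψ ((t.2.1 : G) * t.2.2) (ψ t.1 s) ≠ ψ t.2.1 (ψ t.2.2 (ψ t.1 s))) ≤
          ε / (m : ℝ) ^ 3 * (Fintype.card A : ℝ) := by
      intro t
      have := cnt_perm (ψ t.1) (fun s => ψ ((t.2.1 : G) * t.2.2) s ≠ ψ t.2.1 (ψ t.2.2 s))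
      rw [this]
      exact h2 _ (hL.mem_toFinset.mpr t.2.1.2) _ (hL.mem_toFinset.mpr t.2.2.2)
    refine (sum_le_sum fun t _ => e3 t).trans ?_
    rw [sum_const, card_univ, Fintype.card_prod, Fintype.card_prod, ← hm, nsmul_eq_mul]
    push_cast
    have hm0 : (m : ℝ) ≠ 0 := by positivity
    apply le_of_eq
    field_simp
  · intro s hs g
    simp only [mem_filter, mem_univ, true_and, not_not] at hs
    show ρ g s = ψ g s
    rw [hρa, if_pos hs]

/-! ### systems from Heisenberg families -/

theorem ahom_mono {A G : Type} [Fintype A] [Group G] {ψ : G → Equiv.Perm A} {F F' : Finset G}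
    {ε ε' : ℝ} (h : AHom ψ F ε) (hF : F' ⊆ F) (hε : ε ≤ ε') : AHom ψ F' ε' :=
  ⟨h.1, fun g hg k hk => (h.2 g (hF hg) k (hF hk)).trans
    (mul_le_mul_of_nonneg_right hε (by positivity))⟩

open Classical in
theorem mkKSys (h1 : FinStab) (h2 : HeisFinite) : MkKSys := by
  intro G _ n p hp k hk ε hε
  obtain ⟨hk1, hk2⟩ := hk
  have hcomm : ∀ i j, Commute (k i * k j * (k i)⁻¹ * (k j)⁻¹) (k j) := by
    intro i j
    have := (hk2 j i).inv_left
    have e : (k j * k i * (k j)⁻¹ * (k i)⁻¹)⁻¹ = k i * k j * (k i)⁻¹ * (k j)⁻¹ := by group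
    rwa [e] at this
  have hfin : ∀ i j, ((Subgroup.closure {k i, k j} : Subgroup G) : Set G).Finite := fun i j =>
    h2 G p hp (k i) (k j) (hk1 i) (hk1 j) (hk2 i j) (hcomm i j)
  have hε' : 0 < ε / ((n : ℝ) ^ 2 + 1) := by positivity
  choose F e he hFe using fun i j => h1 G (Subgroup.closure {k i, k j}) (hfin i j) _ hε'
  set E : ℝ := 1 + ∑ t : Fin n × Fin n, 1 / e t.1 t.2 with hE
  have hsum0 : 0 ≤ ∑ t : Fin n × Fin n, 1 / e t.1 t.2 :=
    sum_nonneg fun t _ => (one_div_pos.mpr (he _ _)).le
  have hE0 : 0 < E := by linarith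
  refine ⟨univ.biUnion fun t : Fin n × Fin n => F t.1 t.2, 1 / E, by positivity, ?_⟩
  intro A _ ψ hψ
  have hψij : ∀ i j, AHom ψ (F i j) (e i j) := by
    intro i j
    refine ahom_mono hψ ?_ ?_
    · intro g hg
      exact mem_biUnion.mpr ⟨(i, j), mem_univ _, hg⟩
    · rw [one_div_le hE0 (he i j)]
      have := single_le_sum (f := fun t : Fin n × Fin n => 1 / e t.1 t.2)
        (fun t _ => (one_div_pos.mpr (he _ _)).le) (mem_univ (i, j))
      simp only at this
      linarith
  choose ρ bad hbad hρ using fun i j => hFe i j A ψ (hψij i j)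
  have m1 : ∀ i j, k i ∈ Subgroup.closure {k i, k j} := fun i j =>
    Subgroup.subset_closure (by simp)
  have m2 : ∀ i j, k j ∈ Subgroup.closure {k i, k j} := fun i j =>
    Subgroup.subset_closure (by simp)
  set bd : Finset A := univ.biUnion fun t : Fin n × Fin n => bad t.1 t.2 with hbd
  have hbd1 : ∀ s, s ∉ bd → ∀ i j, s ∉ bad i j := by
    intro s hs i j hh
    exact hs (mem_biUnion.mpr ⟨(i, j), mem_univ _, hh⟩)
  -- values of the powers
  have pw1 : ∀ s, s ∉ bd → ∀ i j (a : ℕ), ((ρ i j ⟨k i, m1 i j⟩) ^ a) s = ψ (k i ^ a) s := by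
    intro s hs i j a
    rw [← map_pow]
    exact hρ i j s (hbd1 s hs i j) _
  have pw2 : ∀ s, s ∉ bd → ∀ i j (a : ℕ), ((ρ i j ⟨k j, m2 i j⟩) ^ a) s = ψ (k j ^ a) s := by
    intro s hs i j a
    rw [← map_pow]
    exact hρ i j s (hbd1 s hs i j) _
  have pp1 : ∀ i j, (ρ i j ⟨k i, m1 i j⟩) ^ p = 1 := by
    intro i j
    rw [← map_pow]
    have : (⟨k i, m1 i j⟩ : Subgroup.closure {k i, k j}) ^ p = 1 := by
      apply Subtype.ext
      simpa using hk1 i
    rw [this, map_one]
  have pp2 : ∀ i j, (ρ i j ⟨k j, m2 i j⟩) ^ p = 1 := by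
    intro i j
    rw [← map_pow]
    have : (⟨k j, m2 i j⟩ : Subgroup.closure {k i, k j}) ^ p = 1 := by
      apply Subtype.ext
      simpa using hk1 j
    rw [this, map_one]
  refine ⟨{ ξ := fun i => ρ i i ⟨k i, m1 i i⟩
            η := fun i j => if i < j then ρ i j ⟨k i, m1 i j⟩ else ρ j i ⟨k i, m2 j i⟩
            bad := bd
            ξ_pow := fun i => pp1 i i
            η_pow := ?_
            comm := ?_
            agree := ?_ }, ?_, ?_⟩
  · intro i j _
    split_ifs
    · exact pp1 i j
    · exact pp2 j i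
  · intro i j hij
    rcases lt_or_gt_of_ne hij with h | h
    · rw [if_pos h, if_neg (not_lt.mpr h.le), ← map_inv, ← map_inv, ← map_mul, ← map_mul,
        ← map_mul]
      apply Commute.map
      apply Subtype.ext
      exact hk2 i j
    · rw [if_pos h, if_neg (not_lt.mpr h.le), ← map_inv, ← map_inv, ← map_mul, ← map_mul,
        ← map_mul]
      apply Commute.map
      apply Subtype.ext
      exact hk2 i j
  · intro s hs i j _ a
    rw [pw1 s hs i i a]
    split_ifs
    · rw [pw1 s hs i j a]
    · rw [pw2 s hs j i a]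
  · show (bd.card : ℝ) ≤ _
    have c1 : (bd.card : ℝ) ≤ ∑ t : Fin n × Fin n, ((bad t.1 t.2).card : ℝ) := by
      exact_mod_cast card_biUnion_le
    refine c1.trans ?_
    refine (sum_le_sum fun t _ => hbad t.1 t.2).trans ?_
    rw [sum_const, card_univ, Fintype.card_prod, Fintype.card_fin, nsmul_eq_mul]
    push_cast
    have : (n : ℝ) * n * (ε / ((n : ℝ) ^ 2 + 1) * (Fintype.card A : ℝ)) =
        ((n : ℝ) ^ 2 / ((n : ℝ) ^ 2 + 1)) * (ε * (Fintype.card A : ℝ)) := by
      field_simp
    rw [this]
    have h3 : (n : ℝ) ^ 2 / ((n : ℝ) ^ 2 + 1) ≤ 1 := by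
      rw [div_le_one (by positivity)]; linarith
    calc _ ≤ 1 * (ε * (Fintype.card A : ℝ)) := mul_le_mul_of_nonneg_right h3 (by positivity)
      _ = _ := one_mul _
  · intro s hs i
    have := pw1 s hs i i 1
    simpa using this

/-! ### the final counting argument -/

section final

variable {A : Type} [Fintype A]

theorem part_card (q : A → ℕ) (s : A) : ((part q s).card : ℝ) = cnt (fun s' => q s' = q s) := by
  have h : part q s = univ.filter (fun s' => q s' = q s) := by
    ext x
    simp only [part, mem_filter]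
  rw [h, cnt_eq]

theorem part_pos (q : A → ℕ) (s : A) : 0 < ((part q s).card : ℝ) := by
  classical
  have : 0 < (part q s).card := card_pos.mpr ⟨s, by simp [part]⟩
  exact_mod_cast this

/-- Two sets of more than half of a set meet. -/
theorem meet {P Q R : A → Prop} (hP : ∀ s, P s → R s) (hQ : ∀ s, Q s → R s)
    (h : cnt R < cnt P + cnt Q) : ∃ s, P s ∧ Q s := by
  classical
  by_contra hne
  push Not at hne
  have : (univ.filter P).card + (univ.filter Q).card ≤ (univ.filter R).card := by
    rw [← card_union_of_disjoint]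
    · apply card_le_card
      intro s hs
      simp only [mem_union, mem_filter, mem_univ, true_and] at hs ⊢
      exact hs.elim (hP s) (hQ s)
    · rw [disjoint_filter]
      intro s _ h1 h2
      exact hne s h1 h2
  have h2 : cnt P + cnt Q ≤ cnt R := by
    unfold cnt
    exact_mod_cast this
  linarith

/-- Dominating values agree in a part. -/
theorem dom_unique {q c : A → ℕ} {τ : ℝ} (hτ : τ < 1 / 2) {s s' : A} (hq : q s' = q s)
    (h : Dom q c τ s) (h' : Dom q c τ s') : c s' = c s := by
  unfold Dom at h h'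
  have hp := part_pos q s
  have e : (part q s').card = (part q s).card := by
    unfold part; rw [hq]
  rw [e] at h'
  obtain ⟨t, ht, ht'⟩ := meet (P := fun t => q t = q s ∧ c t = c s)
    (Q := fun t => q t = q s' ∧ c t = c s') (R := fun t => q t = q s) (fun t ht => ht.1)
    (fun t ht => ht.1.trans hq) (by
      rw [← part_card]
      nlinarith)
  rw [← ht.2, ht'.2]

open Classical in
theorem fiber_bound (r : A → ℕ) (U : A → Prop) (c : ℝ)
    (h : ∀ t, U t → cnt (fun s => U s ∧ r s = r t) ≤ c * cnt (fun s => r s = r t)) (hc : 0 ≤ c) :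
    cnt U ≤ c * (Fintype.card A : ℝ) := by
  have e1 : cnt U = ∑ v ∈ univ.image r, cnt (fun s => U s ∧ r s = v) := by
    simp only [cnt_eq]
    rw [card_eq_sum_card_fiberwise (f := r) (t := univ.image r)]
    · push_cast
      refine sum_congr rfl fun v _ => ?_
      congr 2
      ext s
      simp only [mem_filter, mem_univ, true_and]
    · intro s _
      simp
  have e2 : (Fintype.card A : ℝ) = ∑ v ∈ univ.image r, cnt (fun s => r s = v) := by
    simp only [cnt_eq]
    rw [← card_univ, card_eq_sum_card_fiberwise (f := r) (t := univ.image r)]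
    · push_cast
      rfl
    · intro s _
      simp
  rw [e1, e2, mul_sum]
  refine sum_le_sum fun v _ => ?_
  by_cases hv : ∃ t, U t ∧ r t = v
  · obtain ⟨t, ht, rfl⟩ := hv
    exact h t ht
  · have : cnt (fun s => U s ∧ r s = v) = 0 := by
      rw [cnt_eq, Nat.cast_eq_zero, card_eq_zero, filter_eq_empty_iff]
      intro s _ hs
      exact hv ⟨s, hs⟩
    rw [this]
    exact mul_nonneg hc (cnt_nonneg _)

theorem finalLemma : FinalLemma := by
  intro A _ q r c g τ κ hτ hτκ hκ h1 h2 h3 h4
  set N : ℝ := (Fintype.card A : ℝ) with hN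
  set Gd : A → Prop := fun s => Dom q r τ s ∧
    ((part r s).card : ℝ) ≤ (1 + κ) * ((part q s).card : ℝ) with hGd
  have hκ0 : 0 < κ := hτ.trans_le hτκ
  -- points of Gd
  have hg1 : ∀ s, Gd s → ((1 - τ) / (1 + κ)) * ((part r s).card : ℝ) ≤
      cnt (fun t => q t = q s ∧ r t = r s) := by
    intro s hs
    obtain ⟨ha, hb⟩ := hs
    unfold Dom at ha
    refine le_trans ?_ ha
    rw [div_mul_eq_mul_div, div_le_iff₀ (by linarith)]
    nlinarith
  have hhalf : 1 / 2 < (1 - τ) / (1 + κ) := by
    rw [lt_div_iff₀ (by linarith)]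
    linarith
  have hg2 : ∀ s s', Gd s → Gd s' → r s' = r s → q s' = q s := by
    intro s s' hs hs' hr
    have a1 := hg1 s hs
    have a2 := hg1 s' hs'
    have e : (part r s').card = (part r s).card := by
      unfold part; rw [hr]
    rw [e] at a2
    have hp := part_pos r s
    obtain ⟨t, ht, ht'⟩ := meet (P := fun t => q t = q s ∧ r t = r s)
      (Q := fun t => q t = q s' ∧ r t = r s') (R := fun t => r t = r s) (fun t ht => ht.2)
      (fun t ht => ht.2.trans hr) (by
        rw [← part_card]
        nlinarith)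
    rw [← ht.1, ht'.1]
  -- the set U
  set U : A → Prop := fun t => ∃ s, Gd s ∧ r s = r t ∧ q s ≠ q t with hU
  have hUle : cnt U ≤ 2 * κ * N := by
    refine fiber_bound r U (2 * κ) ?_ (by linarith)
    intro t ht
    obtain ⟨s, hs, hrs, hqs⟩ := ht
    have b1 : cnt (fun x => U x ∧ r x = r t) + cnt (fun x => q x = q s ∧ r x = r s) ≤
        cnt (fun x => r x = r t) := by
      by_contra hlt
      push Not at hlt
      obtain ⟨x, hx, hx'⟩ := meet (P := fun x => U x ∧ r x = r t)
        (Q := fun x => q x = q s ∧ r x = r s) (R := fun x => r x = r t) (fun x hx => hx.2)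
        (fun x hx => hx.2.trans hrs) hlt
      obtain ⟨⟨y, hy, hy1, hy2⟩, hx2⟩ := hx
      apply hy2
      rw [hx'.1]
      exact hg2 s y hs hy (by rw [hy1, hx2, hrs])
    have b2 := hg1 s hs
    have e : ((part r s).card : ℝ) = cnt (fun x => r x = r t) := by
      rw [part_card, hrs]
    rw [e] at b2
    have b3 : 1 - 2 * κ ≤ (1 - τ) / (1 + κ) := by
      rw [le_div_iff₀ (by linarith)]
      nlinarith
    have b4 : 0 ≤ cnt (fun x => r x = r t) := cnt_nonneg _
    nlinarith
  -- bad set of labels q
  have hq : cnt (fun s => q (g s) ≠ q s) ≤ 5 * κ * N := by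
    have c1 : cnt (fun s => q (g s) ≠ q s) ≤ cnt (fun s => (¬ Dom q r τ s ∨
        (1 + κ) * ((part q s).card : ℝ) < ((part r s).card : ℝ)) ∨ (r (g s) ≠ r s ∨ U (g s))) := by
      refine cnt_mono fun s hs => ?_
      by_cases k1 : Dom q r τ s
      · by_cases k2 : (1 + κ) * ((part q s).card : ℝ) < ((part r s).card : ℝ)
        · exact Or.inl (Or.inr k2)
        · by_cases k3 : r (g s) = r s
          · exact Or.inr (Or.inr ⟨s, ⟨k1, not_lt.mp k2⟩, k3.symm, fun h => hs h.symm⟩)
          · exact Or.inr (Or.inl k3)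
      · exact Or.inl (Or.inl k1)
    have c2 := cnt_or (fun s => ¬ Dom q r τ s ∨
        (1 + κ) * ((part q s).card : ℝ) < ((part r s).card : ℝ)) (fun s => r (g s) ≠ r s ∨ U (g s))
    have c3 := cnt_or (fun s => ¬ Dom q r τ s)
      (fun s => (1 + κ) * ((part q s).card : ℝ) < ((part r s).card : ℝ))
    have c4 := cnt_or (fun s => r (g s) ≠ r s) (fun s => U (g s))
    have c5 : cnt (fun s => U (g s)) = cnt U := cnt_perm g U
    linarith
  have hfin : cnt (fun s => c (g s) ≠ c s) ≤ cnt (fun s => q (g s) ≠ q s ∨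
      (¬ Dom q c τ s ∨ ¬ Dom q c τ (g s))) := by
    refine cnt_mono fun s hs => ?_
    by_contra hne
    push Not at hne
    exact hs (dom_unique (by linarith) hne.1 hne.2.1 hne.2.2)
  have d1 := cnt_or (fun s => q (g s) ≠ q s) (fun s => ¬ Dom q c τ s ∨ ¬ Dom q c τ (g s))
  have d2 := cnt_or (fun s => ¬ Dom q c τ s) (fun s => ¬ Dom q c τ (g s))
  have d3 : cnt (fun s => ¬ Dom q c τ (g s)) = cnt (fun s => ¬ Dom q c τ s) :=
    cnt_perm g (fun s => ¬ Dom q c τ s)
  have hN0 : 0 ≤ N := by positivity
  nlinarith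

end final

end

end Helper94.Sof
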